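import Pool.Agent.Results.MP_e734ed_nt.SparseExceptions

/-!
# The abscissas and ordinates of the exceptions to the weak form of Hall's conjecture

The number of the exceptional `|x|` and `|y|`, from the starting theorem `SparseExceptions` (the proofs of `x_le` and
`count_y` are those of the starting file `AdditiveValues`, repeated here to keep the closure small).
-/

set_option autoImplicit false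

namespace Pool.Agent.T9h59.WH

open Pool.Agent.Results.MP_e734ed_nt

/-- the exceptional pairs -/
def Pr (C δ : ℝ) : Set (ℤ × ℤ) :=
  {e : ℤ × ℤ | e.2 ^ 2 ≠ e.1 ^ 3 ∧ |(e.2 : ℝ) ^ 2 - (e.1 : ℝ) ^ 3| ≤ C * |(e.1 : ℝ)| ^ (1 / 2 - δ)}

/-- the `|x|` of the exceptional pairs -/
def ExcX (C δ : ℝ) : Set ℝ := {t : ℝ | ∃ x y : ℤ, (x, y) ∈ Pr C δ ∧ |(x : ℝ)| = t}

/-- the `|y|` of the exceptional pairs -/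
def ExcY (C δ : ℝ) : Set ℝ := {t : ℝ | ∃ x y : ℤ, (x, y) ∈ Pr C δ ∧ |(y : ℝ)| = t}

lemma count_x' (C δ : ℝ) (h0 : 0 ≤ δ) (h1 : δ ≤ 1 / 2) (ε : ℝ) (hε : 0 < ε) : ∃ K : ℝ, ∀ X : ℝ, 1 ≤ X →
    {e | e ∈ Pr C δ ∧ |((e.1 : ℤ) : ℝ)| ≤ X}.Finite ∧
      ({e | e ∈ Pr C δ ∧ |((e.1 : ℤ) : ℝ)| ≤ X}.ncard : ℝ) ≤ K * X ^ (1 / 3 - δ / 6 + ε) := by
  obtain ⟨K, hK⟩ := SparseExceptions.result C ε hε
  refine ⟨K, fun X hX => ?_⟩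
  have e : {e | e ∈ Pr C δ ∧ |((e.1 : ℤ) : ℝ)| ≤ X} = {e : ℤ × ℤ | |(e.1 : ℝ)| ≤ X ∧ e.2 ^ 2 ≠ e.1 ^ 3 ∧
      |(e.2 : ℝ) ^ 2 - (e.1 : ℝ) ^ 3| ≤ C * |(e.1 : ℝ)| ^ (1 / 2 - δ)} := by
    ext e
    constructor
    · rintro ⟨⟨h2, h3⟩, h4⟩
      exact ⟨h4, h2, h3⟩
    · rintro ⟨h4, h2, h3⟩
      exact ⟨⟨h2, h3⟩, h4⟩
  rw [e]
  exact hK δ h0 h1 X hX

/-- the first coordinate of an exceptional pair is bounded in terms of the second -/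
lemma x_le (C δ : ℝ) (h0 : 0 ≤ δ) (h1 : δ ≤ 1 / 2) (e : ℤ × ℤ) (he : e ∈ Pr C δ) (X : ℝ) (hX : 1 ≤ X)
    (hy : |((e.2 : ℤ) : ℝ)| ≤ X) : |((e.1 : ℤ) : ℝ)| ≤ (2 + 2 * |C|) * X ^ ((2 : ℝ) / 3) := by
  obtain ⟨-, h3⟩ := he
  set t : ℝ := |((e.1 : ℤ) : ℝ)| with ht
  have hC := abs_nonneg C
  have hX0 : 0 < X := by linarith
  have hP1 : 1 ≤ X ^ ((2 : ℝ) / 3) := Real.one_le_rpow hX (by norm_num)
  by_contra hcon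
  push Not at hcon
  have ht1 : 1 < t := by
    have : (1 : ℝ) ≤ (2 + 2 * |C|) * X ^ ((2 : ℝ) / 3) := by nlinarith
    linarith
  have h4 : t ^ (1 / 2 - δ) ≤ t := by
    calc t ^ (1 / 2 - δ) ≤ t ^ (1 : ℝ) := Real.rpow_le_rpow_of_exponent_le ht1.le (by linarith)
      _ = t := Real.rpow_one t
  have h5 : C * t ^ (1 / 2 - δ) ≤ |C| * t :=
    (mul_le_mul_of_nonneg_right (le_abs_self C) (by positivity)).trans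
      (mul_le_mul_of_nonneg_left h4 hC)
  have h6 : t ^ 3 ≤ ((e.2 : ℤ) : ℝ) ^ 2 + |((e.2 : ℤ) : ℝ) ^ 2 - ((e.1 : ℤ) : ℝ) ^ 3| := by
    have h7 : t ^ 3 = |((e.1 : ℤ) : ℝ) ^ 3| := by rw [ht, abs_pow]
    rw [h7]
    have h8 := abs_sub_abs_le_abs_sub (((e.1 : ℤ) : ℝ) ^ 3) (((e.2 : ℤ) : ℝ) ^ 2)
    rw [abs_sub_comm, abs_of_nonneg (sq_nonneg ((e.2 : ℤ) : ℝ))] at h8
    linarith
  have h9 : ((e.2 : ℤ) : ℝ) ^ 2 ≤ X ^ 2 := by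
    rw [← sq_abs]
    exact pow_le_pow_left₀ (abs_nonneg _) hy 2
  have h10 : t ^ 3 ≤ X ^ 2 + |C| * t := by linarith
  set D : ℝ := 2 + 2 * |C| with hD
  have hD2 : 2 ≤ D := by rw [hD]; linarith
  have h11 : (D * X ^ ((2 : ℝ) / 3)) ^ 3 < t ^ 3 := pow_lt_pow_left₀ hcon (by positivity) (by norm_num)
  have h12 : (X ^ ((2 : ℝ) / 3)) ^ 3 = X ^ 2 := by
    rw [← Real.rpow_natCast, ← Real.rpow_mul hX0.le]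
    norm_num
  rw [mul_pow, h12] at h11
  have h13 : D ≤ t := by nlinarith
  have h14 : D ^ 2 * t ≤ t ^ 3 := by
    have : D ^ 2 ≤ t ^ 2 := pow_le_pow_left₀ (by linarith) h13 2
    nlinarith
  have h15 : 2 * |C| ≤ D ^ 2 := by nlinarith
  have h16 : 2 * (|C| * t) ≤ D ^ 2 * t := by nlinarith
  have h17 : 8 ≤ D ^ 3 := by
    calc (8 : ℝ) = 2 ^ 3 := by norm_num
      _ ≤ D ^ 3 := pow_le_pow_left₀ (by norm_num) hD2 3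
  have hX2 : 0 < X ^ 2 := by positivity
  nlinarith

lemma count_y' (C δ : ℝ) (h0 : 0 ≤ δ) (h1 : δ ≤ 1 / 2) (ε : ℝ) (hε : 0 < ε) : ∃ K : ℝ, ∀ X : ℝ, 1 ≤ X →
    {e | e ∈ Pr C δ ∧ |((e.2 : ℤ) : ℝ)| ≤ X}.Finite ∧
      ({e | e ∈ Pr C δ ∧ |((e.2 : ℤ) : ℝ)| ≤ X}.ncard : ℝ) ≤ K * X ^ (2 / 9 - δ / 9 + ε) := by
  obtain ⟨K, hK⟩ := count_x' C δ h0 h1 ε hε
  set D : ℝ := 2 + 2 * |C| with hD
  have hD2 : 2 ≤ D := by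
    have := abs_nonneg C
    rw [hD]
    linarith
  refine ⟨|K| * D ^ (1 / 3 - δ / 6 + ε), fun X hX => ?_⟩
  have hX0 : 0 < X := by linarith
  have hP1 : 1 ≤ X ^ ((2 : ℝ) / 3) := Real.one_le_rpow hX (by norm_num)
  have hY : 1 ≤ D * X ^ ((2 : ℝ) / 3) := by nlinarith
  obtain ⟨hfin, hcard⟩ := hK _ hY
  have hsub : {e | e ∈ Pr C δ ∧ |((e.2 : ℤ) : ℝ)| ≤ X} ⊆
      {e | e ∈ Pr C δ ∧ |((e.1 : ℤ) : ℝ)| ≤ D * X ^ ((2 : ℝ) / 3)} := by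
    rintro e ⟨he, hy⟩
    exact ⟨he, x_le C δ h0 h1 e he X hX hy⟩
  refine ⟨hfin.subset hsub, ?_⟩
  have h2 : ({e | e ∈ Pr C δ ∧ |((e.2 : ℤ) : ℝ)| ≤ X}.ncard : ℝ) ≤
      ({e | e ∈ Pr C δ ∧ |((e.1 : ℤ) : ℝ)| ≤ D * X ^ ((2 : ℝ) / 3)}.ncard : ℝ) := by
    exact_mod_cast Set.ncard_le_ncard hsub hfin
  have h3 : (D * X ^ ((2 : ℝ) / 3)) ^ (1 / 3 - δ / 6 + ε) ≤ D ^ (1 / 3 - δ / 6 + ε) * X ^ (2 / 9 - δ / 9 + ε) := by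
    rw [Real.mul_rpow (by linarith) (by positivity), ← Real.rpow_mul hX0.le]
    apply mul_le_mul_of_nonneg_left _ (by positivity)
    apply Real.rpow_le_rpow_of_exponent_le hX
    linarith
  calc ({e | e ∈ Pr C δ ∧ |((e.2 : ℤ) : ℝ)| ≤ X}.ncard : ℝ)
      ≤ K * (D * X ^ ((2 : ℝ) / 3)) ^ (1 / 3 - δ / 6 + ε) := h2.trans hcard
    _ ≤ |K| * (D ^ (1 / 3 - δ / 6 + ε) * X ^ (2 / 9 - δ / 9 + ε)) :=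
        (mul_le_mul_of_nonneg_right (le_abs_self K) (by positivity)).trans
          (mul_le_mul_of_nonneg_left h3 (abs_nonneg K))
    _ = |K| * D ^ (1 / 3 - δ / 6 + ε) * X ^ (2 / 9 - δ / 9 + ε) := by ring

/-- the image of a finite set under a height -/
lemma of_image {T : Type*} {A : Set T} {h : T → ℝ} {B : Set ℝ} {X : ℝ} {Y : ℝ}
    (hsub : {t | t ∈ B ∧ t ≤ X} ⊆ h '' {e | e ∈ A ∧ h e ≤ X})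
    (hA : {e | e ∈ A ∧ h e ≤ X}.Finite ∧ ({e | e ∈ A ∧ h e ≤ X}.ncard : ℝ) ≤ Y) :
    {t | t ∈ B ∧ t ≤ X}.Finite ∧ ({t | t ∈ B ∧ t ≤ X}.ncard : ℝ) ≤ Y := by
  refine ⟨(hA.1.image h).subset hsub, le_trans ?_ hA.2⟩
  exact_mod_cast (Set.ncard_le_ncard hsub (hA.1.image h)).trans (Set.ncard_image_le hA.1)

theorem count_x (C δ : ℝ) (h0 : 0 ≤ δ) (h1 : δ ≤ 1 / 2) (ε : ℝ) (hε : 0 < ε) : ∃ K : ℝ, ∀ X : ℝ, 1 ≤ X →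
    {t | t ∈ ExcX C δ ∧ t ≤ X}.Finite ∧ ({t | t ∈ ExcX C δ ∧ t ≤ X}.ncard : ℝ) ≤ K * X ^ (1 / 3 - δ / 6 + ε) := by
  obtain ⟨K, hK⟩ := count_x' C δ h0 h1 ε hε
  refine ⟨K, fun X hX => of_image (h := fun e : ℤ × ℤ => |((e.1 : ℤ) : ℝ)|) ?_ (hK X hX)⟩
  rintro t ⟨⟨x, y, hxy, rfl⟩, ht⟩
  exact ⟨(x, y), ⟨hxy, ht⟩, rfl⟩

theorem count_y (C δ : ℝ) (h0 : 0 ≤ δ) (h1 : δ ≤ 1 / 2) (ε : ℝ) (hε : 0 < ε) : ∃ K : ℝ, ∀ X : ℝ, 1 ≤ X →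
    {t | t ∈ ExcY C δ ∧ t ≤ X}.Finite ∧ ({t | t ∈ ExcY C δ ∧ t ≤ X}.ncard : ℝ) ≤ K * X ^ (2 / 9 - δ / 9 + ε) := by
  obtain ⟨K, hK⟩ := count_y' C δ h0 h1 ε hε
  refine ⟨K, fun X hX => of_image (h := fun e : ℤ × ℤ => |((e.2 : ℤ) : ℝ)|) ?_ (hK X hX)⟩
  rintro t ⟨⟨x, y, hxy, rfl⟩, ht⟩
  exact ⟨(x, y), ⟨hxy, ht⟩, rfl⟩

end Pool.Agent.T9h59.WH
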